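import Mathlib

/-!
# Minimum-length multiples of nonmonic irreducible polynomials: the degree bound
-/

set_option autoImplicit false

namespace Pool.Agent.W24.ML

open Polynomial Finset

/-- The length of a polynomial: the sum of the absolute values of its coefficients. -/
def len (F : ℤ[X]) : ℕ := ∑ i ∈ F.support, (F.coeff i).natAbs

theorem len_eq_range {F : ℤ[X]} {N : ℕ} (h : F.natDegree < N) :
    len F = ∑ i ∈ range N, (F.coeff i).natAbs := by
  unfold len
  apply sum_subset
  · intro i hi
    rw [mem_range]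
    exact (le_natDegree_of_mem_supp i hi).trans_lt h
  · intro i _ hi
    rw [notMem_support_iff.1 hi]
    rfl

theorem coeff_le_len (F : ℤ[X]) (i : ℕ) : (F.coeff i).natAbs ≤ len F := by
  by_cases h : F.coeff i = 0
  · rw [h]; simp
  · exact single_le_sum (f := fun i => (F.coeff i).natAbs) (fun _ _ => Nat.zero_le _)
      (mem_support_iff.2 h)

theorem card_support_le_len (F : ℤ[X]) : F.support.card ≤ len F := by
  unfold len
  rw [card_eq_sum_ones]
  apply sum_le_sum
  intro i hi
  exact Nat.one_le_iff_ne_zero.2 (Int.natAbs_ne_zero.2 (mem_support_iff.1 hi))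

theorem len_X_mul (F : ℤ[X]) : len (X * F) = len F := by
  by_cases h : F = 0
  · rw [h, mul_zero]
  have h1 : (X * F).natDegree < F.natDegree + 2 := by
    rw [natDegree_X_mul h]
    omega
  rw [len_eq_range h1, len_eq_range (Nat.lt_succ_self F.natDegree), sum_range_succ']
  simp

theorem coeff_divX_iterate (F : ℤ[X]) (j k : ℕ) : (divX^[j] F).coeff k = F.coeff (k + j) := by
  induction j generalizing k with
  | zero => rfl
  | succ j ih =>
    rw [Function.iterate_succ_apply', coeff_divX, ih]
    congr 1
    ring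

/-- The main divisibility: if `P W = r X ^ j + E` with `E` of small degree, then `r` is divisible by
a high power of each prime `p` dividing the leading coefficient of the primitive polynomial `P`. -/
theorem pow_dvd {P : ℤ[X]} (hprim : P.IsPrimitive) {p : ℕ} (hp : p.Prime)
    (hlead : (p : ℤ) ∣ P.leadingCoeff) (j : ℕ) (t : ℕ) :
    ∀ (e : ℕ) (r : ℤ) (W E : ℤ[X]), P * W = C r * X ^ j + E → E.natDegree ≤ e →
      (t = 0 ∨ e + (t - 1) * P.natDegree < j) → (p : ℤ) ^ t ∣ r := by
  have hP0 : P ≠ 0 := hprim.ne_zero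
  induction t with
  | zero =>
    intro e r W E _ _ _
    simp
  | succ t ih =>
    intro e r W E h hE ht
    have hej : e + t * P.natDegree < j := by
      rcases ht with ht | ht
      · omega
      · simpa using ht
    have hej' : e < j := lt_of_le_of_lt (Nat.le_add_right _ _) hej
    -- `p` divides `r`
    have hEj : E.coeff j = 0 := coeff_eq_zero_of_natDegree_lt (hE.trans_lt hej')
    have hcoef : (P * W).coeff j = r := by
      rw [h, coeff_add, hEj, coeff_C_mul, coeff_X_pow, if_pos rfl]
      ring
    have hdegle : (P * W).natDegree ≤ j := by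
      rw [h]
      refine (natDegree_add_le _ _).trans (max_le ?_ (hE.trans hej'.le))
      exact natDegree_C_mul_X_pow_le _ _
    have hpr : (p : ℤ) ∣ r := by
      by_cases hW : W = 0
      · rw [hW, mul_zero, coeff_zero] at hcoef
        rw [← hcoef]
        exact dvd_zero _
      · rw [natDegree_mul hP0 hW] at hdegle
        rcases hdegle.lt_or_eq with hlt | heq
        · have : (P * W).coeff j = 0 :=
            coeff_eq_zero_of_natDegree_lt (by rw [natDegree_mul hP0 hW]; exact hlt)
          rw [← hcoef, this]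
          exact dvd_zero _
        · rw [← hcoef, ← heq, coeff_mul_degree_add_degree]
          exact hlead.mul_right _
    obtain ⟨r', hr'⟩ := hpr
    -- reduction modulo `p`
    have hfact := Fact.mk hp
    have hPbar : P.map (Int.castRingHom (ZMod p)) ≠ 0 := by
      intro h0
      have h1 : C (p : ℤ) ∣ P := by
        rw [C_dvd_iff_dvd_coeff]
        intro i
        have h2 : (P.map (Int.castRingHom (ZMod p))).coeff i = 0 := by rw [h0, coeff_zero]
        rw [coeff_map] at h2
        exact (ZMod.intCast_zmod_eq_zero_iff_dvd _ _).1 h2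
      have h3 := hprim _ h1
      rw [Int.isUnit_iff] at h3
      have := hp.two_le
      omega
    have hbar : P.map (Int.castRingHom (ZMod p)) * W.map (Int.castRingHom (ZMod p)) =
        E.map (Int.castRingHom (ZMod p)) := by
      rw [← Polynomial.map_mul, h, hr', Polynomial.map_add, Polynomial.map_mul, map_C]
      simp
    have hWbar : ∀ b, e < b → (p : ℤ) ∣ W.coeff b := by
      intro b hb
      rw [← ZMod.intCast_zmod_eq_zero_iff_dvd]
      by_cases hW : W.map (Int.castRingHom (ZMod p)) = 0
      · have h2 : (W.map (Int.castRingHom (ZMod p))).coeff b = 0 := by rw [hW, coeff_zero]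
        rw [coeff_map] at h2
        exact h2
      · have h2 : (W.map (Int.castRingHom (ZMod p))).natDegree ≤ e := by
          have h3 := congrArg natDegree hbar
          rw [natDegree_mul hPbar hW] at h3
          have h4 : (E.map (Int.castRingHom (ZMod p))).natDegree ≤ e := natDegree_map_le.trans hE
          omega
        have h5 : (W.map (Int.castRingHom (ZMod p))).coeff b = 0 :=
          coeff_eq_zero_of_natDegree_lt (h2.trans_lt hb)
        rw [coeff_map] at h5
        exact h5
    -- split `W`
    obtain ⟨W₂, hW₂⟩ : ∃ W₂ : ℤ[X], W₂ = ∑ b ∈ range (e + 1), C (W.coeff b) * X ^ b := ⟨_, rfl⟩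
    have hW₂c : ∀ b, W₂.coeff b = if b ≤ e then W.coeff b else 0 := by
      intro b
      rw [hW₂, finsetSum_coeff]
      simp only [coeff_C_mul, coeff_X_pow, mul_ite, mul_one, mul_zero]
      rw [Finset.sum_ite_eq]
      simp only [mem_range, Nat.lt_succ_iff]
    have hW₂d : W₂.natDegree ≤ e := by
      rw [natDegree_le_iff_coeff_eq_zero]
      intro b hb
      rw [hW₂c, if_neg (by omega)]
    have hdvd : C (p : ℤ) ∣ W - W₂ := by
      rw [C_dvd_iff_dvd_coeff]
      intro b
      rw [coeff_sub, hW₂c]
      split_ifs with hb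
      · simp
      · rw [sub_zero]
        exact hWbar b (by omega)
    obtain ⟨W₁, hW₁⟩ := hdvd
    have hp0 : (p : ℤ) ≠ 0 := by exact_mod_cast hp.ne_zero
    have hE1 : C (p : ℤ) * (P * W₁ - C r' * X ^ j) = E - P * W₂ := by
      have h1 : W = W₂ + C (p : ℤ) * W₁ := by rw [← hW₁]; ring
      rw [h1, hr', C_mul] at h
      linear_combination h
    have hE1d : (P * W₁ - C r' * X ^ j).natDegree ≤ e + P.natDegree := by
      have h1 : (C (p : ℤ) * (P * W₁ - C r' * X ^ j)).natDegree ≤ e + P.natDegree := by
        rw [hE1]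
        refine (natDegree_sub_le _ _).trans (max_le (hE.trans (Nat.le_add_right _ _)) ?_)
        refine natDegree_mul_le.trans ?_
        omega
      rwa [natDegree_C_mul hp0] at h1
    have h6 : (p : ℤ) ^ t ∣ r' := by
      apply ih (e + P.natDegree) r' W₁ (P * W₁ - C r' * X ^ j) (by ring) hE1d
      rcases Nat.eq_zero_or_pos t with h0 | h0
      · exact Or.inl h0
      · right
        obtain ⟨s, rfl⟩ : ∃ s, t = s + 1 := ⟨t - 1, by omega⟩
        rw [Nat.add_sub_cancel]
        calc e + P.natDegree + s * P.natDegree = e + (s + 1) * P.natDegree := by ring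
          _ < j := hej
    rw [hr', pow_succ, mul_comm]
    exact mul_dvd_mul_left _ h6

/-- The resultant with a polynomial which is not a multiple of `P` is not zero. -/
theorem resultant_ne {P H : ℤ[X]} (hP : Irreducible P) (hdeg : P.natDegree ≠ 0) (hH : ¬ P ∣ H) :
    resultant P H P.natDegree H.natDegree ≠ 0 := by
  have hprim : P.IsPrimitive := hP.isPrimitive hdeg
  have hinj : Function.Injective (Int.castRingHom ℚ) := Int.cast_injective
  intro h0
  have h1 : resultant (P.map (Int.castRingHom ℚ)) (H.map (Int.castRingHom ℚ))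
      (P.map (Int.castRingHom ℚ)).natDegree (H.map (Int.castRingHom ℚ)).natDegree = 0 := by
    rw [natDegree_map_eq_of_injective hinj, natDegree_map_eq_of_injective hinj,
      resultant_map_map, h0]
    simp
  rw [resultant_eq_zero_iff] at h1
  apply h1.2
  have h2 : Irreducible (P.map (Int.castRingHom ℚ)) :=
    (IsPrimitive.Int.irreducible_iff_irreducible_map_cast hprim).1 hP
  rw [Irreducible.coprime_iff_not_dvd h2]
  intro h3
  apply hH
  exact (IsPrimitive.Int.dvd_iff_map_cast_dvd_map_cast P H hprim).2 h3

theorem resultant_le {P H : ℤ[X]} {m n l : ℕ} (hP : len P ≤ l) (hH : len H ≤ l) :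
    (resultant P H m n).natAbs ≤ (m + n).factorial * l ^ (m + n) := by
  have h1 : ∀ i j, AbsoluteValue.abs ((sylvester P H m n) i j) ≤ (l : ℤ) := by
    intro i j
    rw [AbsoluteValue.abs_apply]
    have hbound : ∀ (F : ℤ[X]) (k : ℕ), len F ≤ l → |F.coeff k| ≤ (l : ℤ) := by
      intro F k hF
      have := (coeff_le_len F k).trans hF
      rw [Int.abs_eq_natAbs]
      exact_mod_cast this
    unfold sylvester
    rw [Matrix.of_apply]
    refine Fin.addCases (fun j₁ => ?_) (fun j₁ => ?_) j
    · rw [Fin.addCases_left]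
      split_ifs
      · exact hbound _ _ hH
      · simp
    · rw [Fin.addCases_right]
      split_ifs
      · exact hbound _ _ hP
      · simp
  have h2 := Matrix.det_le h1
  rw [Fintype.card_fin, AbsoluteValue.abs_apply, Int.abs_eq_natAbs, nsmul_eq_mul] at h2
  exact_mod_cast h2

/-- `F` is a nonzero multiple of `P` and no nonzero multiple of `P` has a smaller length. -/
def IsMinMultiple (P F : ℤ[X]) : Prop :=
  F ≠ 0 ∧ P ∣ F ∧ ∀ T : ℤ[X], P * T ≠ 0 → len F ≤ len (P * T)

/-- The bound for the gaps. -/
def gap (N l d : ℕ) : ℕ := N * ((N + d) * l) ^ (N + d)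

theorem gap_mono (N l : ℕ) (hN : 0 < N) (hl : 0 < l) {d d' : ℕ} (h : d ≤ d') :
    gap N l d ≤ gap N l d' := by
  unfold gap
  apply Nat.mul_le_mul_left
  calc ((N + d) * l) ^ (N + d) ≤ ((N + d') * l) ^ (N + d) := by
        apply Nat.pow_le_pow_left
        apply Nat.mul_le_mul_right
        omega
    _ ≤ _ := by
        apply Nat.pow_le_pow_right
        · exact Nat.mul_pos (by omega) hl
        · omega

/-- The gap lemma. -/
theorem gap_le {P F : ℤ[X]} (hP : Irreducible P) (hlead : P.leadingCoeff.natAbs ≠ 1) {N : ℕ}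
    (hdeg : P.natDegree ≠ 0) (hN : P.natDegree ≤ N) (hF : IsMinMultiple P F) {i j : ℕ}
    (hi : F.coeff i ≠ 0) (hj : F.coeff j ≠ 0) (hij : i < j)
    (hgap : ∀ k, i < k → k < j → F.coeff k = 0) :
    j - i ≤ gap N (len P) (F.natDegree - j) := by
  obtain ⟨hF0, hPF, hmin⟩ := hF
  have hP0 : P ≠ 0 := hP.ne_zero
  have hprim : P.IsPrimitive := hP.isPrimitive hdeg
  have hlF : len F ≤ len P := by
    have := hmin 1
    rw [mul_one] at this
    exact this hP0
  have hjD : j ≤ F.natDegree := le_natDegree_of_ne_zero hj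
  obtain ⟨H, hH⟩ : ∃ H, H = divX^[j] F := ⟨_, rfl⟩
  have hHc : ∀ k, H.coeff k = F.coeff (k + j) := fun k => by rw [hH, coeff_divX_iterate]
  have hH0 : H ≠ 0 := by
    intro h
    apply hj
    have := hHc 0
    rw [h, coeff_zero, zero_add] at this
    exact this.symm
  have hHd : H.natDegree ≤ F.natDegree - j := by
    rw [natDegree_le_iff_coeff_eq_zero]
    intro k hk
    rw [hHc]
    apply coeff_eq_zero_of_natDegree_lt
    omega
  obtain ⟨G, hG⟩ : ∃ G, G = F - X ^ j * H := ⟨_, rfl⟩
  have hGc : ∀ k, G.coeff k = if k < j then F.coeff k else 0 := by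
    intro k
    rw [hG, coeff_sub, coeff_X_pow_mul']
    split_ifs with h1 h2 h2
    · omega
    · rw [hHc, Nat.sub_add_cancel h1, sub_self]
    · rw [sub_zero]
    · omega
  have hGd : G.natDegree ≤ i := by
    rw [natDegree_le_iff_coeff_eq_zero]
    intro k hk
    rw [hGc]
    split_ifs with h1
    · exact hgap k hk h1
    · rfl
  -- the length of `H` is smaller than the length of `F`
  have hlH : len H < len F := by
    have e1 : len H = ∑ k ∈ range (F.natDegree + 1 - j), (F.coeff (j + k)).natAbs := by
      rw [len_eq_range (N := F.natDegree + 1 - j) (by omega)]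
      apply sum_congr rfl
      intro k _
      rw [hHc, add_comm]
    have e2 : len F = ∑ k ∈ range j, (F.coeff k).natAbs +
        ∑ k ∈ range (F.natDegree + 1 - j), (F.coeff (j + k)).natAbs := by
      rw [len_eq_range (Nat.lt_succ_self F.natDegree), ← Finset.sum_range_add]
      congr 2
      omega
    rw [e1, e2]
    have e3 : 0 < ∑ k ∈ range j, (F.coeff k).natAbs := by
      apply sum_pos' (fun _ _ => Nat.zero_le _)
      exact ⟨i, mem_range.2 hij, Int.natAbs_pos.2 hi⟩
    omega
  have hPH : ¬ P ∣ H := by
    rintro ⟨T, rfl⟩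
    exact absurd (hmin T hH0) (not_le.2 hlH)
  -- the resultant
  obtain ⟨r, hr⟩ : ∃ r, r = resultant P H P.natDegree H.natDegree := ⟨_, rfl⟩
  have hr0 : r ≠ 0 := hr ▸ resultant_ne hP hdeg hPH
  obtain ⟨U, V, -, hV, hUV⟩ := exists_mul_add_mul_eq_C_resultant P H
    (m := P.natDegree) (n := H.natDegree) le_rfl le_rfl (Or.inl hdeg)
  rw [← hr] at hUV
  obtain ⟨Q, hQ⟩ := hPF
  have hFsplit : F = G + X ^ j * H := by rw [hG]; ring
  have hmain : P * (V * Q + X ^ j * U) = C r * X ^ j + V * G := by
    have h1 : V * F = V * G + X ^ j * (H * V) := by rw [hFsplit]; ring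
    have h2 : H * V = C r - P * U := by rw [← hUV]; ring
    rw [h2, hQ] at h1
    linear_combination h1
  have hVd : V.natDegree ≤ P.natDegree - 1 := by
    by_cases hV0 : V = 0
    · rw [hV0, natDegree_zero]
      exact Nat.zero_le _
    · have := (natDegree_lt_iff_degree_lt hV0).2 hV
      omega
  have hE : (V * G).natDegree ≤ P.natDegree - 1 + i := natDegree_mul_le.trans (by omega)
  obtain ⟨p, hp, hplead⟩ := Nat.exists_prime_and_dvd hlead
  have hplead' : (p : ℤ) ∣ P.leadingCoeff := Int.natCast_dvd.2 hplead
  -- bound for `r`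
  have hrle : r.natAbs ≤ ((N + (F.natDegree - j)) * len P) ^ (N + (F.natDegree - j)) := by
    have hlP : 0 < len P := lt_of_lt_of_le (lt_of_le_of_lt (Nat.zero_le _) hlH) hlF
    calc r.natAbs ≤ (P.natDegree + H.natDegree).factorial *
          (len P) ^ (P.natDegree + H.natDegree) := hr ▸ resultant_le le_rfl (hlH.le.trans hlF)
      _ ≤ (N + (F.natDegree - j)).factorial * (len P) ^ (N + (F.natDegree - j)) := by
          apply Nat.mul_le_mul
          · exact Nat.factorial_le (by omega)
          · exact Nat.pow_le_pow_right hlP (by omega)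
      _ ≤ (N + (F.natDegree - j)) ^ (N + (F.natDegree - j)) *
            (len P) ^ (N + (F.natDegree - j)) :=
          Nat.mul_le_mul_right _ (Nat.factorial_le_pow _)
      _ = _ := by rw [mul_pow]
  by_contra hcon
  push Not at hcon
  unfold gap at hcon
  have h1 : P.natDegree * r.natAbs < j - i :=
    lt_of_le_of_lt (Nat.mul_le_mul hN hrle) hcon
  have hrpos : 0 < r.natAbs := Int.natAbs_pos.2 hr0
  have h2 : (p : ℤ) ^ r.natAbs ∣ r := by
    apply pow_dvd hprim hp hplead' j r.natAbs _ r _ _ hmain hE
    right
    obtain ⟨s, hs⟩ : ∃ s, r.natAbs = s + 1 := ⟨r.natAbs - 1, by omega⟩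
    rw [hs] at h1 ⊢
    rw [Nat.add_sub_cancel]
    have h3 : s * P.natDegree + P.natDegree = P.natDegree * (s + 1) := by ring
    omega
  have h3 : p ^ r.natAbs ≤ r.natAbs := by
    have h4 := Int.natAbs_dvd_natAbs.2 h2
    rw [Int.natAbs_pow, Int.natAbs_natCast] at h4
    exact Nat.le_of_dvd hrpos h4
  exact absurd h3 (not_le.2 (Nat.lt_pow_self hp.one_lt))

/-- One step of the bound. -/
def step (N l x : ℕ) : ℕ := x + gap N l x

/-- The bound for the degree. -/
def bound (N l : ℕ) : ℕ := (step N l)^[l] 0

theorem step_mono (N l : ℕ) (hN : 0 < N) (hl : 0 < l) {x y : ℕ} (h : x ≤ y) :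
    step N l x ≤ step N l y :=
  Nat.add_le_add h (gap_mono N l hN hl h)

theorem le_step (N l x : ℕ) : x ≤ step N l x := Nat.le_add_right _ _

theorem iterate_le (N l : ℕ) {s t : ℕ} (h : s ≤ t) : (step N l)^[s] 0 ≤ (step N l)^[t] 0 := by
  induction t, h using Nat.le_induction with
  | base => exact le_rfl
  | succ t _ ih =>
    rw [Function.iterate_succ_apply']
    exact ih.trans (le_step N l _)

/-- The degree of a minimum-length multiple with nonzero constant term is bounded. -/
theorem natDegree_le {P F : ℤ[X]} (hP : Irreducible P) (hlead : P.leadingCoeff.natAbs ≠ 1) {N : ℕ}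
    (hdeg : P.natDegree ≠ 0) (hN : P.natDegree ≤ N) (hF : IsMinMultiple P F)
    (hF0 : F.coeff 0 ≠ 0) : F.natDegree ≤ bound N (len P) := by
  classical
  have hP0 : P ≠ 0 := hP.ne_zero
  have hlF : len F ≤ len P := by
    have := hF.2.2 1
    rw [mul_one] at this
    exact this hP0
  have hl : 0 < len P := by
    have h1 := coeff_le_len P P.natDegree
    have h2 : P.coeff P.natDegree ≠ 0 := by
      rw [coeff_natDegree]
      exact leadingCoeff_ne_zero.2 hP0
    have := Int.natAbs_pos.2 h2
    omega
  have hNpos : 0 < N := by omega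
  obtain ⟨D, hD⟩ : ∃ D, D = F.natDegree := ⟨_, rfl⟩
  obtain ⟨l, hl'⟩ : ∃ l, l = len P := ⟨_, rfl⟩
  rw [← hl'] at hlF hl
  have hDmem : D ∈ F.support := by
    rw [hD]
    exact natDegree_mem_support_of_nonzero hF.1
  -- the part of the support near the top
  have key : ∀ t, F.natDegree ≤ (step N l)^[t] 0 ∨
      t + 1 ≤ (F.support.filter (fun k => D - k ≤ (step N l)^[t] 0)).card := by
    intro t
    induction t with
    | zero =>
      right
      rw [Nat.succ_le_iff, card_pos]
      exact ⟨D, mem_filter.2 ⟨hDmem, by simp⟩⟩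
    | succ t ih =>
      rcases ih with ih | ih
      · left
        exact ih.trans (iterate_le N l (Nat.le_succ t))
      · by_cases hall : ∀ k ∈ F.support, D - k ≤ (step N l)^[t] 0
        · left
          have h0 := hall 0 (mem_support_iff.2 hF0)
          rw [Nat.sub_zero, hD] at h0
          exact h0.trans (iterate_le N l (Nat.le_succ t))
        · right
          push Not at hall
          obtain ⟨k₀, hk₀, hk₀'⟩ := hall
          -- the largest element of the support which is not near the top
          obtain ⟨A, hA⟩ : ∃ A, A = F.support.filter (fun k => ¬ D - k ≤ (step N l)^[t] 0) := ⟨_, rfl⟩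
          obtain ⟨B, hB⟩ : ∃ B, B = F.support.filter (fun k => D - k ≤ (step N l)^[t] 0) := ⟨_, rfl⟩
          have hAne : A.Nonempty := ⟨k₀, by rw [hA, mem_filter]; exact ⟨hk₀, not_le.2 hk₀'⟩⟩
          have hBne : B.Nonempty := ⟨D, by rw [hB, mem_filter]; exact ⟨hDmem, by simp⟩⟩
          obtain ⟨i, hi⟩ : ∃ i, i = A.max' hAne := ⟨_, rfl⟩
          obtain ⟨j, hj⟩ : ∃ j, j = B.min' hBne := ⟨_, rfl⟩
          have hiA : i ∈ A := hi ▸ A.max'_mem hAne
          have hjB : j ∈ B := hj ▸ B.min'_mem hBne
          rw [hA, mem_filter] at hiA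
          rw [hB, mem_filter] at hjB
          have hiD : i ≤ D := by
            rw [hD]
            exact le_natDegree_of_mem_supp i hiA.1
          have hjD : j ≤ D := by
            rw [hD]
            exact le_natDegree_of_mem_supp j hjB.1
          have hij : i < j := by omega
          have hgap : ∀ k, i < k → k < j → F.coeff k = 0 := by
            intro k h1 h2
            by_contra hk
            have hk' : k ∈ F.support := mem_support_iff.2 hk
            by_cases h3 : D - k ≤ (step N l)^[t] 0
            · have h4 : k ∈ B := by rw [hB, mem_filter]; exact ⟨hk', h3⟩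
              have := B.min'_le k h4
              omega
            · have h4 : k ∈ A := by rw [hA, mem_filter]; exact ⟨hk', h3⟩
              have := A.le_max' k h4
              omega
          have hg := gap_le hP hlead hdeg hN hF (mem_support_iff.1 hiA.1)
            (mem_support_iff.1 hjB.1) hij hgap
          rw [← hl', ← hD] at hg
          have hg2 : gap N l (D - j) ≤ gap N l ((step N l)^[t] 0) :=
            gap_mono N l hNpos hl hjB.2
          have hinew : D - i ≤ (step N l)^[t + 1] 0 := by
            rw [Function.iterate_succ_apply']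
            unfold step
            unfold step at hg2 hjB
            omega
          have hsub : insert i B ⊆
              F.support.filter (fun k => D - k ≤ (step N l)^[t + 1] 0) := by
            intro k hk
            rw [mem_insert] at hk
            rw [mem_filter]
            rcases hk with rfl | hk
            · exact ⟨hiA.1, hinew⟩
            · rw [hB, mem_filter] at hk
              exact ⟨hk.1, hk.2.trans (iterate_le N l (Nat.le_succ t))⟩
          have hiB : i ∉ B := by
            rw [hB, mem_filter]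
            exact fun h => hiA.2 h.2
          calc t + 1 + 1 ≤ B.card + 1 := by rw [hB]; omega
            _ = (insert i B).card := (card_insert_of_notMem hiB).symm
            _ ≤ _ := card_le_card hsub
  rcases key l with h | h
  · rw [← hl']
    exact h
  · exfalso
    have h1 : (F.support.filter (fun k => D - k ≤ (step N l)^[l] 0)).card ≤ F.support.card :=
      card_filter_le _ _
    have h2 := card_support_le_len F
    omega

/-- Existence of a minimum-length multiple with nonzero constant term. -/
theorem exists_min {P : ℤ[X]} (hP : Irreducible P) (hlead : P.leadingCoeff.natAbs ≠ 1) :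
    P.coeff 0 ≠ 0 ∧ ∃ F : ℤ[X], IsMinMultiple P F ∧ F.coeff 0 ≠ 0 := by
  classical
  have hP0 : P ≠ 0 := hP.ne_zero
  have hX : ¬ P ∣ X := by
    intro h
    obtain ⟨Q, hQ⟩ := h
    have h1 : P.leadingCoeff * Q.leadingCoeff = 1 := by
      rw [← leadingCoeff_mul, ← hQ]
      exact leadingCoeff_X
    apply hlead
    rcases Int.eq_one_or_neg_one_of_mul_eq_one h1 with h2 | h2 <;> rw [h2] <;> rfl
  have hPc : P.coeff 0 ≠ 0 := by
    intro h
    obtain ⟨Q, hQ⟩ := X_dvd_iff.2 h
    apply hX
    rcases hP.isUnit_or_isUnit hQ with h1 | h1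
    · exact absurd h1 not_isUnit_X
    · rw [hQ]
      obtain ⟨u, hu⟩ := h1
      refine ⟨((u⁻¹ : (ℤ[X])ˣ) : ℤ[X]), ?_⟩
      rw [← hu, mul_assoc, Units.mul_inv, mul_one]
  refine ⟨hPc, ?_⟩
  -- the least length
  have hex : ∃ m, ∃ F : ℤ[X], F ≠ 0 ∧ P ∣ F ∧ len F = m := ⟨_, P, hP0, dvd_rfl, rfl⟩
  have hex2 : ∃ d, ∃ F : ℤ[X], F ≠ 0 ∧ P ∣ F ∧ len F = Nat.find hex ∧ F.natDegree = d := by
    obtain ⟨F, h1, h2, h3⟩ := Nat.find_spec hex
    exact ⟨_, F, h1, h2, h3, rfl⟩
  obtain ⟨F, h1, h2, h3, h4⟩ := Nat.find_spec hex2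
  have hmin : IsMinMultiple P F := by
    refine ⟨h1, h2, fun T hT => ?_⟩
    rw [h3]
    exact Nat.find_min' hex ⟨_, hT, dvd_mul_right _ _, rfl⟩
  refine ⟨F, hmin, fun h0 => ?_⟩
  obtain ⟨G, hG⟩ := X_dvd_iff.2 h0
  have hG0 : G ≠ 0 := by
    rintro rfl
    rw [mul_zero] at hG
    exact h1 hG
  have hPG : P ∣ G := by
    rw [hG] at h2
    exact (hP.prime.dvd_or_dvd h2).resolve_left hX
  have h5 : len G = Nat.find hex := by rw [← h3, hG, len_X_mul]
  have h6 := Nat.find_min' hex2 ⟨G, hG0, hPG, h5, rfl⟩
  rw [← h4, hG, natDegree_X_mul hG0] at h6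
  omega

theorem natAbs_sum_le' (s : Finset ℕ) (f : ℕ → ℤ) :
    (∑ k ∈ s, f k).natAbs ≤ ∑ k ∈ s, (f k).natAbs := by
  classical
  induction s using Finset.induction_on with
  | empty => simp
  | insert a s ha ih =>
    rw [sum_insert ha, sum_insert ha]
    exact (Int.natAbs_add_le _ _).trans (Nat.add_le_add_left ih _)

/-- The coefficients of the cofactor are bounded. -/
theorem cofactor_le {P T : ℤ[X]} (hP : P.coeff 0 ≠ 0) (h : len (P * T) ≤ len P) (j : ℕ) :
    (T.coeff j).natAbs ≤ (1 + len P) ^ (j + 1) := by
  obtain ⟨l, hl⟩ : ∃ l, l = len P := ⟨_, rfl⟩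
  rw [← hl] at h ⊢
  induction j using Nat.strong_induction_on with
  | _ j ih =>
    have h1 : (P * T).coeff j = P.coeff 0 * T.coeff j +
        ∑ k ∈ range j, P.coeff (k + 1) * T.coeff (j - (k + 1)) := by
      rw [coeff_mul, Finset.Nat.sum_antidiagonal_eq_sum_range_succ
        (fun a b => P.coeff a * T.coeff b), sum_range_succ', Nat.sub_zero, add_comm]
    have h2 : (P.coeff 0 * T.coeff j).natAbs ≤ ((P * T).coeff j).natAbs +
        (∑ k ∈ range j, P.coeff (k + 1) * T.coeff (j - (k + 1))).natAbs := by
      have h3 : P.coeff 0 * T.coeff j = (P * T).coeff j -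
        ∑ k ∈ range j, P.coeff (k + 1) * T.coeff (j - (k + 1)) := by rw [h1]; ring
      rw [h3]
      exact Int.natAbs_sub_le _ _
    have h4 : (T.coeff j).natAbs ≤ (P.coeff 0 * T.coeff j).natAbs := by
      rw [Int.natAbs_mul]
      exact Nat.le_mul_of_pos_left _ (Int.natAbs_pos.2 hP)
    have h5 : ((P * T).coeff j).natAbs ≤ l := (coeff_le_len _ _).trans h
    have h6 : (∑ k ∈ range j, P.coeff (k + 1) * T.coeff (j - (k + 1))).natAbs ≤
        l * (1 + l) ^ j := by
      calc (∑ k ∈ range j, P.coeff (k + 1) * T.coeff (j - (k + 1))).natAbs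
          ≤ ∑ k ∈ range j, (P.coeff (k + 1) * T.coeff (j - (k + 1))).natAbs :=
            natAbs_sum_le' _ _
        _ ≤ ∑ k ∈ range j, (P.coeff (k + 1)).natAbs * (1 + l) ^ j := by
            apply sum_le_sum
            intro k hk
            rw [mem_range] at hk
            rw [Int.natAbs_mul]
            apply Nat.mul_le_mul_left
            refine (ih (j - (k + 1)) (by omega)).trans ?_
            exact Nat.pow_le_pow_right (by omega) (by omega)
        _ = (∑ k ∈ range j, (P.coeff (k + 1)).natAbs) * (1 + l) ^ j := by rw [sum_mul]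
        _ ≤ l * (1 + l) ^ j := by
            apply Nat.mul_le_mul_right
            have h7 : len P = ∑ k ∈ range (max j P.natDegree + 1), (P.coeff k).natAbs :=
              len_eq_range (by omega)
            rw [hl, h7, sum_range_succ']
            refine le_trans (sum_le_sum_of_subset ?_) (Nat.le_add_right _ _)
            exact range_mono (le_max_left _ _)
    rcases Nat.eq_zero_or_pos j with hj | hj
    · subst hj
      rw [range_zero, sum_empty, Int.natAbs_zero, add_zero] at h2
      rw [zero_add, pow_one]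
      omega
    · have h8 : 1 + l ≤ (1 + l) ^ j := Nat.le_self_pow hj.ne' _
      calc (T.coeff j).natAbs ≤ l + l * (1 + l) ^ j := by omega
        _ ≤ (1 + l) ^ j + l * (1 + l) ^ j := by omega
        _ = (1 + l) ^ (j + 1) := by ring

end Pool.Agent.W24.ML
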