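import Mathlib
import Pool.Agent.Helper578.OG.J3
import Pool.Agent.W24.ML.Gap

/-!
# Minimum-length multiples of nonmonic irreducible polynomials: the algorithm
-/

set_option autoImplicit false

namespace Pool.Agent.W24.ML

open Polynomial

/-- The polynomial with the coefficients `l`, the constant term first. -/
noncomputable def poly : List ℤ → ℤ[X]
  | [] => 0
  | a :: l => C a + X * poly l

theorem coeff_poly (l : List ℤ) (i : ℕ) : (poly l).coeff i = l.getD i 0 := by
  induction l generalizing i with
  | nil => simp [poly]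
  | cons a l ih =>
    cases i with
    | zero => simp [poly]
    | succ i =>
      rw [poly, coeff_add, coeff_C_succ, zero_add, coeff_X_mul, ih]
      simp

theorem natDegree_poly_le (l : List ℤ) : (poly l).natDegree ≤ l.length := by
  rw [natDegree_le_iff_coeff_eq_zero]
  intro i hi
  rw [coeff_poly]
  exact List.getD_eq_default _ _ hi.le

/-- The sum of the absolute values. -/
def lenL (l : List ℤ) : ℕ := l.foldr (fun a s => a.natAbs + s) 0

theorem len_poly (l : List ℤ) : len (poly l) = lenL l := by
  rw [len_eq_range (N := l.length + 1) (Nat.lt_succ_of_le (natDegree_poly_le l))]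
  simp only [coeff_poly]
  induction l with
  | nil => simp [lenL]
  | cons a l ih =>
    rw [List.length_cons, Finset.sum_range_succ']
    simp only [List.getD_cons_succ, List.getD_cons_zero]
    rw [ih, add_comm]
    rfl

/-- The sum of two coefficient lists. -/
def addL (x y : List ℤ) : List ℤ :=
  (List.range (x.length + y.length)).map (fun i => x.getD i 0 + y.getD i 0)

theorem poly_addL (x y : List ℤ) : poly (addL x y) = poly x + poly y := by
  ext i
  rw [coeff_add, coeff_poly, coeff_poly, coeff_poly]
  unfold addL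
  by_cases hi : i < x.length + y.length
  · rw [List.getD_eq_getElem _ _ (by simpa using hi)]
    simp
  · rw [List.getD_eq_default _ _ (by simpa using hi), List.getD_eq_default _ _ (by omega),
      List.getD_eq_default _ _ (by omega), add_zero]

theorem poly_map_mul (a : ℤ) (T : List ℤ) : poly (T.map (fun b => a * b)) = C a * poly T := by
  induction T with
  | nil => simp [poly]
  | cons b T ih =>
    rw [List.map_cons, poly, poly, ih, C_mul]
    ring

/-- The product of two coefficient lists. -/
def mulL (P T : List ℤ) : List ℤ :=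
  P.foldr (fun a r => addL (T.map (fun b => a * b)) (0 :: r)) []

theorem poly_mulL (P T : List ℤ) : poly (mulL P T) = poly P * poly T := by
  induction P with
  | nil => simp [mulL, poly]
  | cons a P ih =>
    have h : mulL (a :: P) T = addL (T.map (fun b => a * b)) (0 :: mulL P T) := rfl
    rw [h, poly_addL, poly_map_mul, poly, poly, ih, C_0]
    ring

/-- The integers from `-M` to `M`. -/
def ints (M : ℕ) : List ℤ := (List.range (2 * M + 1)).map (fun j : ℕ => (j : ℤ) - (M : ℤ))

theorem mem_ints {M : ℕ} {a : ℤ} (h : a.natAbs ≤ M) : a ∈ ints M := by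
  unfold ints
  rw [List.mem_map]
  refine ⟨(a + M).toNat, ?_, ?_⟩
  · rw [List.mem_range]
    omega
  · omega

/-- All lists of length `n` with entries between `-M` and `M`. -/
def allLists (M : ℕ) (n : ℕ) : List (List ℤ) :=
  Nat.rec (motive := fun _ => List (List ℤ)) [[]]
    (fun _ r => (ints M).flatMap (fun a => r.map (fun t => a :: t))) n

theorem mem_allLists {M n : ℕ} {t : List ℤ} (hn : t.length = n) (h : ∀ a ∈ t, a.natAbs ≤ M) :
    t ∈ allLists M n := by
  induction n generalizing t with
  | zero =>
    rw [List.length_eq_zero_iff.1 hn]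
    exact List.mem_singleton.2 rfl
  | succ n ih =>
    cases t with
    | nil => simp at hn
    | cons a t =>
      have e : allLists M (n + 1) = (ints M).flatMap (fun a => (allLists M n).map (fun t => a :: t)) :=
        rfl
      rw [e, List.mem_flatMap]
      refine ⟨a, mem_ints (h a (by simp)), ?_⟩
      rw [List.mem_map]
      exact ⟨t, ih (by simpa using hn) (fun b hb => h b (by simp [hb])), rfl⟩

/-- The better one of two multiples of `P`: the best one up to now and `P T`. -/
def better (P best T : List ℤ) : List ℤ :=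
  if lenL (mulL P T) ≠ 0 ∧ lenL (mulL P T) < lenL best then mulL P T else best

/-- The algorithm: search through all cofactors with bounded degree and coefficients. -/
def alg (P : List ℤ) : List ℤ :=
  (allLists ((1 + lenL P) ^ (bound P.length (lenL P) + 1)) (bound P.length (lenL P) + 1)).foldl
    (better P) P

theorem lenL_eq_zero_iff (l : List ℤ) : lenL l = 0 ↔ poly l = 0 := by
  rw [← len_poly]
  constructor
  · intro h
    ext i
    have := coeff_le_len (poly l) i
    rw [h] at this
    simpa using this
  · intro h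
    rw [h]
    simp [len]

theorem foldl_better (P : List ℤ) (L : List (List ℤ)) : ∀ best : List ℤ, poly best ≠ 0 →
    poly P ∣ poly best →
    poly (L.foldl (better P) best) ≠ 0 ∧ poly P ∣ poly (L.foldl (better P) best) ∧
      lenL (L.foldl (better P) best) ≤ lenL best ∧
      ∀ T ∈ L, poly P * poly T ≠ 0 → lenL (L.foldl (better P) best) ≤ lenL (mulL P T) := by
  induction L with
  | nil =>
    intro best h1 h2
    refine ⟨h1, h2, le_rfl, ?_⟩
    intro T hT
    simp at hT
  | cons T L ih =>
    intro best h1 h2
    rw [List.foldl_cons]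
    have h3 : poly (better P best T) ≠ 0 ∧ poly P ∣ poly (better P best T) ∧
        lenL (better P best T) ≤ lenL best ∧
        (poly P * poly T ≠ 0 → lenL (better P best T) ≤ lenL (mulL P T)) := by
      unfold better
      split_ifs with h
      · refine ⟨fun h0 => h.1 ((lenL_eq_zero_iff _).2 h0), ?_, h.2.le, fun _ => le_rfl⟩
        rw [poly_mulL]
        exact dvd_mul_right _ _
      · refine ⟨h1, h2, le_rfl, fun h4 => ?_⟩
        by_contra h5
        apply h
        refine ⟨fun h0 => h4 ?_, not_le.1 h5⟩
        rw [← poly_mulL]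
        exact (lenL_eq_zero_iff _).1 h0
    obtain ⟨g1, g2, g3, g4⟩ := h3
    obtain ⟨k1, k2, k3, k4⟩ := ih _ g1 g2
    refine ⟨k1, k2, k3.trans g3, ?_⟩
    intro S hS hS2
    rcases List.mem_cons.1 hS with rfl | hS
    · exact k3.trans (g4 hS2)
    · exact k4 S hS hS2

/-- The correctness of the algorithm. -/
theorem alg_correct (l : List ℤ) (hP : Irreducible (poly l)) (hdeg : 1 ≤ (poly l).natDegree)
    (hlead : (poly l).leadingCoeff.natAbs ≠ 1) : IsMinMultiple (poly l) (poly (alg l)) := by
  obtain ⟨hP0, F, hF, hF0⟩ := exists_min hP hlead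
  have hbound := natDegree_le hP hlead (N := l.length) (by omega) (natDegree_poly_le l) hF hF0
  rw [len_poly] at hbound
  obtain ⟨Q, hQ⟩ := hF.2.1
  have hlF : len F ≤ len (poly l) := by
    have := hF.2.2 1
    rw [mul_one] at this
    exact this hP.ne_zero
  obtain ⟨B, hB⟩ : ∃ B, B = bound l.length (lenL l) := ⟨_, rfl⟩
  have hQd : Q.natDegree ≤ B := by
    have h1 : F.natDegree = (poly l).natDegree + Q.natDegree := by
      rw [hQ]
      apply natDegree_mul hP.ne_zero
      rintro rfl
      apply hF.1
      rw [hQ, mul_zero]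
    omega
  -- the cofactor as a list
  obtain ⟨T, hT⟩ : ∃ T : List ℤ, T = (List.range (B + 1)).map (fun i => Q.coeff i) := ⟨_, rfl⟩
  have hTl : T.length = B + 1 := by rw [hT]; simp
  have hTp : poly T = Q := by
    ext i
    rw [coeff_poly, hT]
    by_cases hi : i < B + 1
    · rw [List.getD_eq_getElem _ _ (by simpa using hi)]
      simp
    · rw [List.getD_eq_default _ _ (by simpa using hi)]
      exact (coeff_eq_zero_of_natDegree_lt (by omega)).symm
  have hTmem : T ∈ allLists ((1 + lenL l) ^ (B + 1)) (B + 1) := by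
    apply mem_allLists hTl
    intro a ha
    rw [hT, List.mem_map] at ha
    obtain ⟨i, hi, rfl⟩ := ha
    rw [List.mem_range] at hi
    have h1 := cofactor_le hP0 (hQ ▸ hlF) i
    rw [len_poly] at h1
    exact h1.trans (Nat.pow_le_pow_right (by omega) (by omega))
  have hfold := foldl_better l (allLists ((1 + lenL l) ^ (B + 1)) (B + 1)) l hP.ne_zero dvd_rfl
  have halg : alg l = (allLists ((1 + lenL l) ^ (B + 1)) (B + 1)).foldl (better l) l := by
    rw [hB]
    rfl
  rw [← halg] at hfold
  obtain ⟨h1, h2, -, h3⟩ := hfold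
  refine ⟨h1, h2, fun S hS => ?_⟩
  have h4 := h3 T hTmem (by rw [hTp, ← hQ]; exact hF.1)
  calc len (poly (alg l)) = lenL (alg l) := len_poly _
    _ ≤ lenL (mulL l T) := h4
    _ = len F := by rw [← len_poly, poly_mulL, hTp, ← hQ]
    _ ≤ _ := hF.2.2 S hS

/-! ### Primitive recursiveness -/

open Pool.Agent.Helper578.OG

theorem prim_natAbs : Primrec Int.natAbs := by
  refine (Primrec.nat_add.comp prim_toNat_j3 prim_toNat_neg_j3).of_eq fun z => ?_
  omega

theorem prim_lenL : Primrec lenL := by
  unfold lenL
  refine Primrec.list_foldr (f := fun l : List ℤ => l) (g := fun _ => 0)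
    (h := fun (_ : List ℤ) (p : ℤ × ℕ) => p.1.natAbs + p.2) Primrec.id (Primrec.const 0) ?_
  exact Primrec.nat_add.comp (prim_natAbs.comp (Primrec.fst.comp Primrec.snd))
    (Primrec.snd.comp Primrec.snd)

theorem prim_addL : Primrec₂ addL := by
  unfold addL
  refine Primrec.list_map (f := fun p : List ℤ × List ℤ => List.range (p.1.length + p.2.length))
    (g := fun (p : List ℤ × List ℤ) (i : ℕ) => p.1.getD i 0 + p.2.getD i 0) ?_ ?_
  · exact Primrec.list_range.comp (Primrec.nat_add.comp (Primrec.list_length.comp Primrec.fst)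
      (Primrec.list_length.comp Primrec.snd))
  · exact prim_int_add_j3.comp
      ((Primrec.list_getD 0).comp (Primrec.fst.comp Primrec.fst) Primrec.snd)
      ((Primrec.list_getD 0).comp (Primrec.snd.comp Primrec.fst) Primrec.snd)

theorem prim_mulL : Primrec₂ mulL := by
  unfold mulL
  refine Primrec.list_foldr (f := fun p : List ℤ × List ℤ => p.1) (g := fun _ => ([] : List ℤ))
    (h := fun (p : List ℤ × List ℤ) (q : ℤ × List ℤ) =>
      addL (p.2.map (fun b => q.1 * b)) (0 :: q.2)) Primrec.fst (Primrec.const []) ?_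
  refine prim_addL.comp ?_ ?_
  · refine Primrec.list_map
      (f := fun r : (List ℤ × List ℤ) × (ℤ × List ℤ) => r.1.2)
      (g := fun (r : (List ℤ × List ℤ) × (ℤ × List ℤ)) (b : ℤ) => r.2.1 * b)
      (Primrec.snd.comp Primrec.fst) ?_
    exact prim_int_mul_j3.comp (Primrec.fst.comp (Primrec.snd.comp Primrec.fst)) Primrec.snd
  · exact Primrec.list_cons.comp (Primrec.const 0) (Primrec.snd.comp Primrec.snd)

theorem prim_pow : Primrec₂ (fun a b : ℕ => a ^ b) := by
  have h : Primrec₂ (fun a b : ℕ => Nat.rec (motive := fun _ => ℕ) 1 (fun _ r => r * a) b) := by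
    refine Primrec.nat_rec' (f := fun p : ℕ × ℕ => p.2) (g := fun _ => 1)
      (h := fun (p : ℕ × ℕ) (q : ℕ × ℕ) => q.2 * p.1) Primrec.snd (Primrec.const 1) ?_
    exact Primrec.nat_mul.comp (Primrec.snd.comp Primrec.snd) (Primrec.fst.comp Primrec.fst)
  refine h.of_eq fun a b => ?_
  induction b with
  | zero => rfl
  | succ b ih =>
    rw [pow_succ, ← ih]

theorem prim_ints : Primrec ints := by
  unfold ints
  refine Primrec.list_map (f := fun M : ℕ => List.range (2 * M + 1))
    (g := fun (M : ℕ) (j : ℕ) => (j : ℤ) - (M : ℤ)) ?_ ?_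
  · exact Primrec.list_range.comp (Primrec.nat_add.comp
      (Primrec.nat_mul.comp (Primrec.const 2) Primrec.id) (Primrec.const 1))
  · exact prim_natSub_j3.comp Primrec.snd Primrec.fst

theorem prim_allLists : Primrec₂ allLists := by
  unfold allLists
  refine Primrec.nat_rec' (f := fun p : ℕ × ℕ => p.2) (g := fun _ => ([[]] : List (List ℤ)))
    (h := fun (p : ℕ × ℕ) (q : ℕ × List (List ℤ)) =>
      (ints p.1).flatMap (fun a => q.2.map (fun t => a :: t))) Primrec.snd (Primrec.const [[]]) ?_
  refine Primrec.list_flatMap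
    (f := fun r : (ℕ × ℕ) × (ℕ × List (List ℤ)) => ints r.1.1)
    (g := fun (r : (ℕ × ℕ) × (ℕ × List (List ℤ))) (a : ℤ) => r.2.2.map (fun t => a :: t)) ?_ ?_
  · exact prim_ints.comp (Primrec.fst.comp Primrec.fst)
  · refine Primrec.list_map
      (f := fun s : ((ℕ × ℕ) × (ℕ × List (List ℤ))) × ℤ => s.1.2.2)
      (g := fun (s : ((ℕ × ℕ) × (ℕ × List (List ℤ))) × ℤ) (t : List ℤ) => s.2 :: t) ?_ ?_
    · exact Primrec.snd.comp (Primrec.snd.comp Primrec.fst)
    · exact Primrec.list_cons.comp (Primrec.snd.comp Primrec.fst) Primrec.snd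

theorem prim_bound : Primrec₂ bound := by
  unfold bound
  refine Primrec.nat_iterate (f := fun p : ℕ × ℕ => p.2) (g := fun _ => 0)
    (h := fun (p : ℕ × ℕ) (x : ℕ) => step p.1 p.2 x) Primrec.snd (Primrec.const 0) ?_
  unfold step gap
  have hN : Primrec (fun r : (ℕ × ℕ) × ℕ => r.1.1) := Primrec.fst.comp Primrec.fst
  have hl : Primrec (fun r : (ℕ × ℕ) × ℕ => r.1.2) := Primrec.snd.comp Primrec.fst
  have hNx : Primrec (fun r : (ℕ × ℕ) × ℕ => r.1.1 + r.2) := Primrec.nat_add.comp hN Primrec.snd
  exact Primrec.nat_add.comp Primrec.snd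
    (Primrec.nat_mul.comp hN (prim_pow.comp (Primrec.nat_mul.comp hNx hl) hNx))

theorem prim_alg : Primrec alg := by
  unfold alg
  have hb : Primrec (fun P : List ℤ => bound P.length (lenL P) + 1) :=
    Primrec.nat_add.comp (prim_bound.comp Primrec.list_length prim_lenL) (Primrec.const 1)
  refine Primrec.list_foldl
    (f := fun P : List ℤ => allLists ((1 + lenL P) ^ (bound P.length (lenL P) + 1))
      (bound P.length (lenL P) + 1)) (g := fun P : List ℤ => P)
    (h := fun (P : List ℤ) (q : List ℤ × List ℤ) => better P q.1 q.2) ?_ Primrec.id ?_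
  · refine prim_allLists.comp ?_ hb
    exact prim_pow.comp (Primrec.nat_add.comp (Primrec.const 1) prim_lenL) hb
  · unfold better
    have hm : Primrec (fun r : List ℤ × (List ℤ × List ℤ) => mulL r.1 r.2.2) :=
      prim_mulL.comp Primrec.fst (Primrec.snd.comp Primrec.snd)
    have hml := prim_lenL.comp hm
    refine Primrec.ite ?_ hm (Primrec.fst.comp Primrec.snd)
    refine PrimrecPred.and ?_ ?_
    · exact PrimrecPred.not (Primrec.eq.comp hml (Primrec.const 0))
    · exact Primrec.nat_lt.comp hml (prim_lenL.comp (Primrec.fst.comp Primrec.snd))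

end Pool.Agent.W24.ML
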